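import Pool.Agent.helper65.T1.SpecN

/-!
# Row `t1:N4M` (project T1, MP_07c750): the fourth moment
-/

set_option autoImplicit false

open MeasureTheory

namespace Pool.Agent.T1

noncomputable section

theorem N4M_add (x y : ℝ) : Nex (x + y) = Nex x * Nex y := by
  unfold Nex
  rw [← Complex.exp_add]
  congr 1
  push_cast
  ring

theorem N4M_key (N : ℕ) (U : Finset ℤ) (X t η : ℝ) : ‖NS N U X t η‖ ^ 4 =
    ‖∑ p ∈ U ×ˢ U, Nex ((Nsx N X p.1 + Nsx N X p.2) * t + (Nsx N X p.1 ^ 2 + Nsx N X p.2 ^ 2) * η)‖ ^ 2 := by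
  have e : ∑ p ∈ U ×ˢ U, Nex ((Nsx N X p.1 + Nsx N X p.2) * t + (Nsx N X p.1 ^ 2 + Nsx N X p.2 ^ 2) * η) = NS N U X t η * NS N U X t η := by
    unfold NS
    rw [Finset.sum_mul_sum, Finset.sum_product]
    refine Finset.sum_congr rfl fun i _ => Finset.sum_congr rfl fun j _ => ?_
    rw [← N4M_add]
    congr 1
    ring
  rw [e, norm_mul]
  ring

theorem N4M_proof (hNPC : NPC_stmt) : N4M_stmt := by
  obtain ⟨C, hC, H⟩ := hNPC
  refine ⟨C, hC, ?_⟩
  intro N U X T H' hT hH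
  have h := H (ℤ × ℤ) (U ×ˢ U) (fun p => Nsx N X p.1 + Nsx N X p.2) (fun p => Nsx N X p.1 ^ 2 + Nsx N X p.2 ^ 2) T H' hT hH
  simp only [N4M_key]
  exact h

end

end Pool.Agent.T1
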