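import Pool.Agent.helper47.T1.SpecE1
import Pool.Agent.helper61.MS.EQ1

/-!
# Row `t1:QE1` (project T1, MP_07c750): change of `α`, effective form
-/

set_option autoImplicit false

open scoped MatrixGroups ContDiff Topology UpperHalfPlane ComplexConjugate
open UpperHalfPlane MeasureTheory Filter Set

namespace Pool.Agent.T1

open Pool.Agent.RS Pool.Agent.MS

theorem QE1_M {J : ℕ} {M : ℝ} {β : ℝ → ℝ} (h : SBM J M β) : 0 ≤ M :=
  (abs_nonneg _).trans (h.bd 0 (Nat.zero_le _) 0)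

theorem QE1_mono {J : ℕ} {M M' : ℝ} {β : ℝ → ℝ} (h : SBM J M β) (hM : M ≤ M') : SBM J M' β :=
  ⟨h.sb, fun j hj x => (h.bd j hj x).trans hM⟩

theorem QE1_sub {J : ℕ} {M : ℝ} {a b : ℝ → ℝ} (ha : SBM J M a) (hb : SBM J M b) : SBM J (2 * M) (fun x => a x - b x) := by
  refine ⟨⟨ha.sb.1.sub hb.sb.1, fun x hx => ?_⟩, fun j hj x => ?_⟩
  · by_cases h : a x = 0
    · apply hb.sb.2 x
      intro h'
      apply hx
      simp only []
      rw [h, h', sub_zero]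
    · exact ha.sb.2 x h
  · have e : iteratedDeriv j (fun x => a x - b x) x = iteratedDeriv j a x - iteratedDeriv j b x := by
      have h1 : ContDiffAt ℝ j a x := (ha.sb.1.of_le (by exact_mod_cast le_top)).contDiffAt
      have h2 : ContDiffAt ℝ j b x := (hb.sb.1.of_le (by exact_mod_cast le_top)).contDiffAt
      exact iteratedDeriv_sub h1 h2
    rw [e]
    calc |iteratedDeriv j a x - iteratedDeriv j b x| ≤ |iteratedDeriv j a x| + |iteratedDeriv j b x| := abs_sub _ _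
      _ ≤ M + M := add_le_add (ha.bd j hj x) (hb.bd j hj x)
      _ = 2 * M := by ring

theorem QE1_proof (h1 : QFR_stmt) (hCV1 : RS.CV1_stmt) (hFL0 : RS.FL0_stmt) : QE1_stmt := by
  obtain ⟨K, hK, H⟩ := h1
  refine ⟨16 * K, by linarith, ?_⟩
  intro β α1 α2 M hβ ha1 ha2 hint Γ F r φ hΓ hF hr hφ
  have hM : 0 ≤ M := QE1_M hβ
  have hβ' : SBM 4 (2 * M) β := QE1_mono hβ (by linarith)
  have hα := QE1_sub ha1 ha2
  have h2 := (H β (fun x => α1 x - α2 x) (2 * M) hβ' hα Γ F r hΓ hF (by linarith)).2 φ hφ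
  have hi0 : ∫ x, (α1 x - α2 x) = 0 := by
    rw [integral_sub (MS.EQ1_int _ α1 ha1.sb) (MS.EQ1_int _ α2 ha2.sb), hint, sub_self]
  rw [hi0] at h2
  have hc1 : TB (1 / 4) (pc β α1) := (hCV1.2.2 (1 / 4) α1 β ha1.sb hβ.sb).1
  have hc2 : TB (1 / 4) (pc β α2) := (hCV1.2.2 (1 / 4) α2 β ha2.sb hβ.sb).1
  have hφc : Continuous φ := ((QU.A_CA1 ℂ).1 _).1 ((QU.A_CA1 ℂ).2.1 _ 0 2 (by norm_num) hφ.1)
  have heq : iR F (fun g => ‖pf β α1 r φ g - pf β α2 r φ g‖ ^ 2) = qn F (pc β (fun x => α1 x - α2 x)) r φ := by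
    unfold qn
    congr 1
    funext g
    rw [MS.EQ1_Wf hFL0 r β α1 α2 hc1 hc2 φ hφc g]
  rw [heq]
  have h3 := (abs_le.1 h2).2
  have e : K * (2 * M) ^ 4 * r ^ (-(1 / 8) : ℝ) * nn F φ = 16 * K * M ^ 4 * r ^ (-(1 / 8) : ℝ) * nn F φ := by ring
  rw [← e]
  simpa using h3

end Pool.Agent.T1
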